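import Pool.Agent.H87.EBK.Stmts

/-! Board ebk, row STP (helper86): the main step. -/

set_option autoImplicit false

namespace Pool.EBK

theorem stp_pair {a b : ℚ} (h : Pair a b) : Pair b a :=
  ⟨h.2.1, h.1, by rw [add_comm]; exact h.2.2⟩

theorem stp_third {a b c : ℚ} (h : Third a b c) : Third b a c := ⟨h.1, h.2.2, h.2.1⟩

theorem stp_rich {a b : ℚ} (h : Rich a b) : Rich b a := by
  obtain ⟨h1, c, h2, h3, h4⟩ := h
  exact ⟨stp_pair h1, c, stp_third h2, h4, h3⟩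

theorem stp_aux (hVNE : VNE) (hSTR : STR) (hRCA : RCA) (hRCB : RCB) (a b : ℚ) (F : Finset ℚ)
    (hR : Rich a b) (hlt : v a < v b) : ∃ c, c ∉ F ∧ Third a b c ∧ Rich a c ∧ Rich b c := by
  have hP := hR.1
  have hβ : v a + 2 ≤ v b := by
    rcases hVNE a b hP with h | h
    · exact h
    · omega
  obtain ⟨k, hka, hkb, hk⟩ := hSTR a b hR
  obtain ⟨n, hn1, hn2⟩ : ∃ n : ℕ, v b - n ≤ k ∧ ∀ f ∈ F, v b - n < v f := by
    refine ⟨(v b - k).toNat + ∑ f ∈ F, (v b - v f).natAbs + 1, ?_, ?_⟩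
    · push_cast
      have h1 : v b - k ≤ ((v b - k).toNat : ℤ) := Int.self_le_toNat _
      have h2 : (0 : ℤ) ≤ ∑ f ∈ F, |v b - v f| := Finset.sum_nonneg fun _ _ => abs_nonneg _
      linarith
    · intro f hf
      have h1 : (v b - v f).natAbs ≤ ∑ f ∈ F, (v b - v f).natAbs :=
        Finset.single_le_sum (f := fun f => (v b - v f).natAbs) (fun _ _ => Nat.zero_le _) hf
      have h3 : v b - v f ≤ ((v b - v f).natAbs : ℤ) := Int.le_natAbs
      have h4 : ((v b - v f).natAbs : ℤ) ≤ ((∑ f ∈ F, (v b - v f).natAbs : ℕ) : ℤ) := by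
        exact_mod_cast h1
      omega
  obtain ⟨t, ht⟩ : ∃ t : ℤ, t = v b - 2 * (2 ^ n * (v b - v a - 1) + 1) := ⟨_, rfl⟩
  have htn : t ≤ v b - n := by
    have h1 : (n : ℤ) < 2 ^ n := by exact_mod_cast Nat.lt_two_pow_self
    have h2 : (2 : ℤ) ^ n * 1 ≤ 2 ^ n * (v b - v a - 1) :=
      mul_le_mul_of_nonneg_left (by omega) (by positivity)
    have h3 : (0 : ℤ) < 2 ^ n := by positivity
    rw [ht]
    linarith
  obtain ⟨c, hc, hvc⟩ := hk (k - t).toNat
  have hvc' : v c = t := by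
    rw [hvc, Int.toNat_of_nonneg (by omega)]
    ring
  have hca : v c < v a := by omega
  refine ⟨c, ?_, hc, hRCA a b c hP hc hlt hca, hRCB a b c n hP hc hlt hca ?_⟩
  · intro hF
    have := hn2 c hF
    omega
  · rw [hvc', ht]
    ring

theorem stp (hVNE : VNE) (hSTR : STR) (hRCA : RCA) (hRCB : RCB) : STP := by
  intro a b F hR
  rcases hVNE a b hR.1 with h | h
  · exact stp_aux hVNE hSTR hRCA hRCB a b F hR (by omega)
  · obtain ⟨c, h1, h2, h3, h4⟩ := stp_aux hVNE hSTR hRCA hRCB b a F (stp_rich hR) (by omega)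
    exact ⟨c, h1, stp_third h2, h4, h3⟩

end Pool.EBK
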